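import Mathlib

/-!
The permutation-building game.

A play is recorded by the function `f : ℕ → Fin N`; the entries chosen so far are those with index
below the current time `t`.  The entries `f 0, …, f (N-1)` are the first word and
`f N, …, f (2N-1)` the second word.
-/

namespace Pool.Agent.Q238.PermGame

/-- The value `v` may be chosen at time `t`: it does not yet occur in the current word. -/
def Legal (N t : ℕ) (f : ℕ → Fin N) (v : Fin N) : Prop :=
  ∀ s, s < t → s / N = t / N → f s ≠ v

/-- The two words are permutations that generate the symmetric group. -/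
def Generates (N : ℕ) (f : ℕ → Fin N) : Prop :=
  ∃ σ τ : Equiv.Perm (Fin N), (∀ i : Fin N, σ i = f i) ∧ (∀ i : Fin N, τ i = f (N + i)) ∧
    Subgroup.closure {σ, τ} = ⊤

/-- `AWins N turnA n f`: with `n` choices left, player `A` can force a win from `f`. Here
`turnA t` says that `A` makes the choice at time `t` (times are `0, …, 2N-1`). -/
def AWins (N : ℕ) (turnA : ℕ → Prop) : ℕ → (ℕ → Fin N) → Prop
  | 0, f => Generates N f
  | n + 1, f =>
    (turnA (2 * N - (n + 1)) ∧ ∃ v, Legal N (2 * N - (n + 1)) f v ∧
      AWins N turnA n (Function.update f (2 * N - (n + 1)) v)) ∨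
    (¬ turnA (2 * N - (n + 1)) ∧ ∀ v, Legal N (2 * N - (n + 1)) f v →
      AWins N turnA n (Function.update f (2 * N - (n + 1)) v))

/-- `BWins N turnA n f`: with `n` choices left, player `B` can force a win from `f`. -/
def BWins (N : ℕ) (turnA : ℕ → Prop) : ℕ → (ℕ → Fin N) → Prop
  | 0, f => ¬ Generates N f
  | n + 1, f =>
    (¬ turnA (2 * N - (n + 1)) ∧ ∃ v, Legal N (2 * N - (n + 1)) f v ∧
      BWins N turnA n (Function.update f (2 * N - (n + 1)) v)) ∨
    (turnA (2 * N - (n + 1)) ∧ ∀ v, Legal N (2 * N - (n + 1)) f v →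
      BWins N turnA n (Function.update f (2 * N - (n + 1)) v))

/-- Convention I: in each word `A` chooses the entries at the positions `1, 3, 5, …`, which are
the times `t` with `t % N` even. -/
def turnI (N : ℕ) (t : ℕ) : Prop := t % N % 2 = 0

/-- Convention II: the choices alternate over the `2N` entries. -/
def turnII (t : ℕ) : Prop := t % 2 = 0

/-- The initial record (irrelevant values). -/
def start (N : ℕ) (hN : 1 ≤ N) : ℕ → Fin N := fun _ => ⟨0, hN⟩

theorem not_both (N : ℕ) (turnA : ℕ → Prop) (n : ℕ) : ∀ f, ¬ (AWins N turnA n f ∧ BWins N turnA n f) := by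
  induction n with
  | zero => rintro f ⟨h1, h2⟩; exact h2 h1
  | succ n ih =>
    rintro f ⟨h1, h2⟩
    rcases h1 with ⟨ht, v, hv, h1⟩ | ⟨ht, h1⟩ <;> rcases h2 with ⟨ht', h2⟩ | ⟨ht', h2⟩
    · exact ht' ht
    · exact ih _ ⟨h1, h2 v hv⟩
    · obtain ⟨v, hv, h2⟩ := h2
      exact ih _ ⟨h1 v hv, h2⟩
    · exact ht ht'

/-- The record is legal up to time `t`. -/
def Ok (N t : ℕ) (f : ℕ → Fin N) : Prop :=
  ∀ s s', s < s' → s' < t → s / N = s' / N → f s ≠ f s'

theorem ok_update {N t : ℕ} {f : ℕ → Fin N} {v : Fin N} (h : Ok N t f) (hv : Legal N t f v) :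
    Ok N (t + 1) (Function.update f t v) := by
  intro s s' hs hs' hd
  have h1 : s ≠ t := by omega
  rw [Function.update_of_ne h1]
  by_cases h2 : s' = t
  · subst h2
    rw [Function.update_self]
    exact hv s hs hd
  · rw [Function.update_of_ne h2]
    exact h s s' hs (by omega) hd

/-- The general principle: if `B` can keep an invariant `P` which at the end excludes that the
permutations generate the symmetric group, then `B` wins. -/
theorem bWins_of_invariant (N : ℕ) (turnA : ℕ → Prop) (P : ℕ → (ℕ → Fin N) → Prop)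
    (hA : ∀ t f v, t < 2 * N → turnA t → Ok N t f → P t f → Legal N t f v →
      P (t + 1) (Function.update f t v))
    (hB : ∀ t f, t < 2 * N → ¬ turnA t → Ok N t f → P t f →
      ∃ v, Legal N t f v ∧ P (t + 1) (Function.update f t v))
    (hend : ∀ f, Ok N (2 * N) f → P (2 * N) f → ¬ Generates N f) :
    ∀ n f, n ≤ 2 * N → Ok N (2 * N - n) f → P (2 * N - n) f → BWins N turnA n f := by
  intro n
  induction n with
  | zero =>
    intro f _ hok hP
    exact hend f hok hP
  | succ n ih =>
    intro f hn hok hP
    have e : 2 * N - (n + 1) + 1 = 2 * N - n := by omega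
    by_cases ht : turnA (2 * N - (n + 1))
    · right
      refine ⟨ht, fun v hv => ?_⟩
      apply ih _ (by omega)
      · rw [← e]; exact ok_update hok hv
      · rw [← e]; exact hA _ f v (by omega) ht hok hP hv
    · left
      obtain ⟨v, hv, hP'⟩ := hB _ f (by omega) ht hok hP
      refine ⟨ht, v, hv, ?_⟩
      apply ih _ (by omega)
      · rw [← e]; exact ok_update hok hv
      · rw [← e]; exact hP'

theorem ok_zero (N : ℕ) (f : ℕ → Fin N) : Ok N 0 f := by
  intro s s' _ h; omega

theorem bWins_start (N : ℕ) (hN : 1 ≤ N) (turnA : ℕ → Prop) (P : ℕ → (ℕ → Fin N) → Prop)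
    (h0 : ∀ f, P 0 f)
    (hA : ∀ t f v, t < 2 * N → turnA t → Ok N t f → P t f → Legal N t f v →
      P (t + 1) (Function.update f t v))
    (hB : ∀ t f, t < 2 * N → ¬ turnA t → Ok N t f → P t f →
      ∃ v, Legal N t f v ∧ P (t + 1) (Function.update f t v))
    (hend : ∀ f, Ok N (2 * N) f → P (2 * N) f → ¬ Generates N f) :
    BWins N turnA (2 * N) (start N hN) := by
  apply bWins_of_invariant N turnA P hA hB hend _ _ le_rfl
  · rw [Nat.sub_self]; exact ok_zero N _
  · rw [Nat.sub_self]; exact h0 _

/-! ### Even `N ≥ 4`: the block strategy -/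

/-- The partner of a value. -/
def partner {N : ℕ} (hN : Even N) (x : Fin N) : Fin N :=
  if h : x.1 % 2 = 0 then ⟨x.1 + 1, by
    obtain ⟨k, hk⟩ := hN
    have := x.2
    omega⟩ else ⟨x.1 - 1, by have := x.2; omega⟩

theorem partner_val {N : ℕ} (hN : Even N) (x : Fin N) :
    (partner hN x).1 = if x.1 % 2 = 0 then x.1 + 1 else x.1 - 1 := by
  unfold partner
  split_ifs <;> rfl

theorem partner_partner {N : ℕ} (hN : Even N) (x : Fin N) : partner hN (partner hN x) = x := by
  apply Fin.ext
  rw [partner_val, partner_val]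
  split_ifs <;> omega

theorem partner_ne {N : ℕ} (hN : Even N) (x : Fin N) : partner hN x ≠ x := by
  intro h
  have := congrArg Fin.val h
  rw [partner_val] at this
  split_ifs at this <;> omega

/-- The partner involution. -/
def pinv {N : ℕ} (hN : Even N) : Equiv.Perm (Fin N) where
  toFun := partner hN
  invFun := partner hN
  left_inv := partner_partner hN
  right_inv := partner_partner hN

theorem div_eq_of_even {N : ℕ} (hN : Even N) (j : ℕ) : (2 * j + 1) / N = 2 * j / N := by
  obtain ⟨k, hk⟩ := hN
  have h1 : N = 2 * k := by omega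
  subst h1
  rw [← Nat.div_div_eq_div_mul, ← Nat.div_div_eq_div_mul]
  congr 1
  omega

theorem block_wins {N : ℕ} (hN : Even N) (h4 : 4 ≤ N) (turnA : ℕ → Prop)
    (hturn : ∀ t, t < 2 * N → (turnA t ↔ t % 2 = 0)) :
    BWins N turnA (2 * N) (start N (by omega)) := by
  apply bWins_start N (by omega) turnA
    (fun t f => ∀ j, 2 * j + 1 < t → f (2 * j + 1) = partner hN (f (2 * j)))
  · intro f j hj; omega
  · intro t f v ht htA hok hP hv j hj
    rw [hturn t ht] at htA
    have h1 : 2 * j + 1 ≠ t := by omega
    have h2 : 2 * j ≠ t := by omega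
    rw [Function.update_of_ne h1, Function.update_of_ne h2]
    exact hP j (by omega)
  · intro t f ht htA hok hP
    rw [hturn t ht] at htA
    obtain ⟨j, rfl⟩ : ∃ j, t = 2 * j + 1 := ⟨t / 2, by omega⟩
    refine ⟨partner hN (f (2 * j)), ?_, ?_⟩
    · intro s hs hd hfs
      rw [div_eq_of_even hN] at hd
      by_cases hs2 : s = 2 * j
      · rw [hs2] at hfs
        exact partner_ne hN _ hfs.symm
      · obtain ⟨i, hi | hi⟩ : ∃ i, s = 2 * i ∨ s = 2 * i + 1 := ⟨s / 2, by omega⟩
        · subst hi
          have h1 := hP i (by omega)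
          rw [hfs, partner_partner] at h1
          exact hok (2 * i + 1) (2 * j) (by omega) (by omega)
            (by rw [div_eq_of_even hN]; exact hd) h1
        · subst hi
          have h1 := hP i (by omega)
          rw [hfs] at h1
          have h2 : f (2 * i) = f (2 * j) := by
            have := congrArg (partner hN) h1
            rw [partner_partner, partner_partner] at this
            exact this.symm
          exact hok (2 * i) (2 * j) (by omega) (by omega)
            (by rw [← div_eq_of_even hN]; exact hd) h2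
    · intro i hi
      by_cases hij : i = j
      · subst hij
        rw [Function.update_self, Function.update_of_ne (by omega)]
      · rw [Function.update_of_ne (by omega), Function.update_of_ne (by omega)]
        exact hP i (by omega)
  · rintro f hok hP ⟨σ, τ, hσ, hτ, hgen⟩
    obtain ⟨k, hk⟩ := hN
    have hN : Even N := ⟨k, hk⟩
    have hcomm : ∀ (ρ : Equiv.Perm (Fin N)) (c : ℕ), c % 2 = 0 → (c = 0 ∨ c = N) →
        (∀ i : Fin N, ρ i = f (c + i)) → Commute ρ (pinv hN) := by
      intro ρ c hc hc' hρ
      have key : ∀ x : Fin N, x.1 % 2 = 0 → ρ (partner hN x) = partner hN (ρ x) := by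
        intro x hx
        rw [hρ, hρ, partner_val, if_pos hx]
        obtain ⟨y, hy⟩ : ∃ y, c + x.1 = 2 * y := ⟨(c + x.1) / 2, by omega⟩
        have hx2 := x.2
        have h1 := hP y (by rcases hc' with rfl | rfl <;> omega)
        have e1 : c + (x.1 + 1) = 2 * y + 1 := by omega
        rw [e1, h1, hy]
      apply Equiv.Perm.ext
      intro x
      show ρ (partner hN x) = partner hN (ρ x)
      by_cases hx : x.1 % 2 = 0
      · exact key x hx
      · have h2 : (partner hN x).1 % 2 = 0 := by
          rw [partner_val, if_neg hx]; omega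
        have h3 := key _ h2
        rw [partner_partner] at h3
        rw [h3, partner_partner]
    have hσc : Commute σ (pinv hN) := hcomm σ 0 rfl (Or.inl rfl) (by simpa using hσ)
    have hτc : Commute τ (pinv hN) := hcomm τ N (by omega) (Or.inr rfl) hτ
    have hle : Subgroup.closure {σ, τ} ≤ Subgroup.centralizer {pinv hN} := by
      rw [Subgroup.closure_le]
      intro g hg
      rw [SetLike.mem_coe, Subgroup.mem_centralizer_singleton_iff]
      rcases hg with rfl | hg
      · exact hσc
      · rw [Set.mem_singleton_iff] at hg; subst hg; exact hτc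
    rw [hgen, top_le_iff] at hle
    -- a transposition which does not commute with the involution
    have h0 : Equiv.swap (⟨0, by omega⟩ : Fin N) ⟨2, by omega⟩ ∈ Subgroup.centralizer {pinv hN} := by
      rw [hle]; trivial
    rw [Subgroup.mem_centralizer_singleton_iff] at h0
    have h1 := congrArg (fun g : Equiv.Perm (Fin N) => (g (⟨1, by omega⟩ : Fin N)).1) h0
    simp only [Equiv.Perm.mul_apply] at h1
    have e1 : (pinv hN (⟨1, by omega⟩ : Fin N)) = ⟨0, by omega⟩ := by
      apply Fin.ext
      show (partner hN _).1 = _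
      rw [partner_val]; rfl
    have e2 : Equiv.swap (⟨0, by omega⟩ : Fin N) ⟨2, by omega⟩ ⟨1, by omega⟩ = ⟨1, by omega⟩ := by
      apply Equiv.swap_apply_of_ne_of_ne <;> simp
    rw [e1, e2, e1, Equiv.swap_apply_left] at h1
    simp at h1

end Pool.Agent.Q238.PermGame
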