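import Pool.Agent.Q238.PermGame.Game

/-!
Odd `N`: the parity strategy for Convention I.
-/

namespace Pool.Agent.Q238.PermGame

open Equiv

/-- Every legal record extends to permutations. -/
theorem exists_ext {N t c : ℕ} {f : ℕ → Fin N} (hok : Ok N t f) (hc : c = 0 ∨ c = N) (hN : 1 ≤ N) :
    ∃ ρ : Perm (Fin N), ∀ i : Fin N, c + i.1 < t → ρ i = f (c + i.1) := by
  classical
  have hcard : Fintype.card (Fin N) = (Finset.univ : Finset (Fin N)).card := by simp
  have hinj : Set.InjOn (fun i : Fin N => f (c + i.1)) {i | c + i.1 < t} := by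
    intro i hi j hj hij
    by_contra hne
    have hd : ∀ a : Fin N, (c + a.1) / N = c / N := by
      intro a
      rcases hc with rfl | rfl
      · rw [Nat.zero_div, zero_add]; exact Nat.div_eq_of_lt a.2
      · rw [Nat.add_div_left _ (by omega), Nat.div_eq_of_lt a.2, Nat.div_self (by omega)]
    rcases Nat.lt_or_gt_of_ne (fun h : i.1 = j.1 => hne (Fin.ext h)) with h | h
    · exact hok (c + i.1) (c + j.1) (by omega) hj (by rw [hd, hd]) hij
    · exact hok (c + j.1) (c + i.1) (by omega) hi (by rw [hd, hd]) hij.symm
  obtain ⟨g, hg⟩ := Set.MapsTo.exists_equiv_extend_of_card_eq hcard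
    (f := fun i : Fin N => f (c + i.1)) (s := {i : Fin N | c + i.1 < t})
    (fun x _ => Finset.mem_univ _) hinj
  refine ⟨g.trans (Equiv.subtypeUnivEquiv (fun x => Finset.mem_univ x)), fun i hi => ?_⟩
  exact hg i hi

/-- The base of the word containing the time `t`. -/
theorem exists_base {N t : ℕ} (ht : t < 2 * N) : ∃ c, (c = 0 ∨ c = N) ∧ ∃ i : Fin N, t = c + i.1 := by
  by_cases h : t < N
  · exact ⟨0, Or.inl rfl, ⟨t, h⟩, by simp⟩
  · exact ⟨N, Or.inr rfl, ⟨t - N, by omega⟩, by simp; omega⟩

theorem div_base {N c : ℕ} (hc : c = 0 ∨ c = N) (i : Fin N) : (c + i.1) / N = c / N := by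
  have hi := i.2
  rcases hc with rfl | rfl
  · rw [Nat.zero_div, zero_add]; exact Nat.div_eq_of_lt hi
  · rw [Nat.add_div_left _ (by omega), Nat.div_eq_of_lt hi, Nat.div_self (by omega)]

/-- The value of an extending permutation is legal. -/
theorem legal_of_ext {N c : ℕ} {f : ℕ → Fin N} (hc : c = 0 ∨ c = N) (i : Fin N)
    (ρ : Perm (Fin N)) (hρ : ∀ j : Fin N, j.1 < i.1 → ρ j = f (c + j.1)) :
    Legal N (c + i.1) f (ρ i) := by
  intro s hs hd hfs
  have hi := i.2
  rw [div_base hc] at hd
  obtain ⟨j, hj⟩ : ∃ j : Fin N, s = c + j.1 := by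
    rcases hc with hc | hc
    · exact ⟨⟨s, by omega⟩, by simp [hc]⟩
    · have h1 : N ≤ s := by
        by_contra hlt
        rw [hc, Nat.div_eq_of_lt (by omega), Nat.div_self (by omega)] at hd
        omega
      exact ⟨⟨s - N, by omega⟩, by simp only; omega⟩
  subst hj
  have h1 := hρ j (by omega)
  rw [← h1] at hfs
  have h2 := ρ.injective hfs
  rw [h2] at hs
  omega

theorem perm_eq_of_agree {N : ℕ} (ρ ρ' : Perm (Fin N))
    (h : ∀ i : Fin N, i.1 + 1 < N → ρ i = ρ' i) : ρ = ρ' := by
  apply Equiv.ext
  intro i
  by_cases hi : i.1 + 1 < N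
  · exact h i hi
  · -- the last point
    obtain ⟨j, hj⟩ := ρ'.surjective (ρ i)
    by_cases hj' : j.1 + 1 < N
    · rw [← h j hj'] at hj
      have := ρ.injective hj
      rw [this] at hj'
      exact absurd hj' hi
    · have : j = i := by
        apply Fin.ext
        have h1 := i.2
        have h2 := j.2
        omega
      rw [← this]
      rw [this] at hj ⊢
      exact hj.symm

/-- Odd `N ≥ 3`: `B` can make both permutations even, if he makes the last free choice of each
word. -/
theorem parity_wins {N : ℕ} (h3 : 3 ≤ N) (turnA : ℕ → Prop) (h1 : ¬ turnA (N - 2))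
    (h2 : ¬ turnA (N + (N - 2))) :
    BWins N turnA (2 * N) (start N (by omega)) := by
  classical
  apply bWins_start N (by omega) turnA
    (fun t f => ∀ c, (c = 0 ∨ c = N) → c + N - 1 ≤ t → ∀ ρ : Perm (Fin N),
      (∀ i : Fin N, i.1 + 1 < N → ρ i = f (c + i.1)) → Perm.sign ρ = 1)
  · intro f c hc h; omega
  · intro t f v ht htA hok hP hv c hc hct ρ hρ
    have hne : c + N - 2 ≠ t := by
      intro h
      rcases hc with hc | hc
      · apply h1
        have : N - 2 = t := by omega
        rw [this]; exact htA
      · apply h2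
        have : N + (N - 2) = t := by omega
        rw [this]; exact htA
    apply hP c hc (by omega) ρ
    intro i hi
    rw [hρ i hi, Function.update_of_ne]
    omega
  · intro t f ht htA hok hP
    obtain ⟨c, hc, i, rfl⟩ := exists_base ht
    obtain ⟨ρ0, hρ0⟩ := exists_ext hok hc (by omega)
    by_cases hi : i.1 = N - 2
    · -- the critical choice
      set l : Fin N := ⟨N - 1, by omega⟩ with hl
      have hil : i ≠ l := by
        intro h; rw [h, hl] at hi; simp at hi; omega
      -- an even extension
      obtain ⟨ρ1, hρ1, hsign⟩ : ∃ ρ1 : Perm (Fin N), (∀ j : Fin N, j.1 < i.1 → ρ1 j = f (c + j.1)) ∧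
          Perm.sign ρ1 = 1 := by
        rcases Int.units_eq_one_or (Perm.sign ρ0) with h | h
        · exact ⟨ρ0, fun j hj => hρ0 j (by omega), h⟩
        · refine ⟨ρ0 * swap i l, fun j hj => ?_, ?_⟩
          · have hji : j ≠ i := by rintro rfl; omega
            have hjl : j ≠ l := by rintro rfl; simp [hl] at hj; omega
            rw [Perm.mul_apply, swap_apply_of_ne_of_ne hji hjl]
            exact hρ0 j (by omega)
          · rw [Perm.sign_mul, h, Perm.sign_swap hil]; rfl
      refine ⟨ρ1 i, legal_of_ext hc i ρ1 hρ1, ?_⟩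
      intro c' hc' hct ρ hρ
      by_cases hcc : c' = c
      · subst hcc
        have : ρ = ρ1 := by
          apply perm_eq_of_agree
          intro j hj
          rw [hρ j hj]
          by_cases hji : j = i
          · rw [hji, Function.update_self]
          · have hji' : j.1 ≠ i.1 := fun h => hji (Fin.ext h)
            rw [Function.update_of_ne (by omega), hρ1 j (by omega)]
        rw [this, hsign]
      · apply hP c' hc' (by rcases hc with hc | hc <;> rcases hc' with hc' | hc' <;> omega) ρ
        intro j hj
        rw [hρ j hj, Function.update_of_ne]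
        rcases hc with hc | hc <;> rcases hc' with hc' | hc' <;> omega
    · refine ⟨ρ0 i, legal_of_ext hc i ρ0 (fun j hj => hρ0 j (by omega)), ?_⟩
      intro c' hc' hct ρ hρ
      have hi2 := i.2
      apply hP c' hc' (by
        rcases hc with hc | hc <;> rcases hc' with hc' | hc' <;> omega) ρ
      intro j hj
      rw [hρ j hj, Function.update_of_ne]
      rcases hc with hc | hc <;> rcases hc' with hc' | hc' <;> omega
  · rintro f hok hP ⟨σ, τ, hσ, hτ, hgen⟩
    have hs1 : Perm.sign σ = 1 := hP 0 (Or.inl rfl) (by omega) σ (fun i _ => by simpa using hσ i)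
    have hs2 : Perm.sign τ = 1 := hP N (Or.inr rfl) (by omega) τ (fun i _ => hτ i)
    have hle : Subgroup.closure {σ, τ} ≤ (Perm.sign (α := Fin N)).ker := by
      rw [Subgroup.closure_le]
      intro g hg
      rw [SetLike.mem_coe, MonoidHom.mem_ker]
      rcases hg with rfl | hg
      · exact hs1
      · rw [Set.mem_singleton_iff] at hg; rw [hg]; exact hs2
    rw [hgen, top_le_iff] at hle
    have h0 : swap (⟨0, by omega⟩ : Fin N) ⟨1, by omega⟩ ∈ (Perm.sign (α := Fin N)).ker := by
      rw [hle]; trivial
    rw [MonoidHom.mem_ker, Perm.sign_swap (by simp)] at h0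
    exact absurd h0 (by decide)

/-- `A` wins for `N = 1`. -/
theorem aWins_one (turnA : ℕ → Prop) : AWins 1 turnA 2 (start 1 le_rfl) := by
  have hgen : ∀ f : ℕ → Fin 1, Generates 1 f := by
    intro f
    refine ⟨1, 1, fun i => Subsingleton.elim _ _, fun i => Subsingleton.elim _ _, ?_⟩
    rw [eq_top_iff]
    intro g _
    rw [Subsingleton.elim g 1]
    exact Subgroup.one_mem _
  have step : ∀ n f, Ok 1 (2 - n) f → n ≤ 2 → AWins 1 turnA n f := by
    intro n
    induction n with
    | zero => intro f _ _; exact hgen f
    | succ n ih =>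
      intro f hok hn
      have hleg : Legal 1 (2 * 1 - (n + 1)) f 0 := by
        intro s hs hd
        rw [Nat.div_one, Nat.div_one] at hd
        omega
      have e : 2 - (n + 1) + 1 = 2 - n := by omega
      by_cases ht : turnA (2 * 1 - (n + 1))
      · left
        refine ⟨ht, 0, hleg, ih _ ?_ (by omega)⟩
        rw [← e]; exact ok_update hok hleg
      · right
        refine ⟨ht, fun v hv => ih _ ?_ (by omega)⟩
        rw [← e]; exact ok_update hok hv
  exact step 2 _ (by intro s s' _ h; omega) le_rfl

/-- `A` wins for `N = 2`, when he makes the first choice. -/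
theorem aWins_two (turnA : ℕ → Prop) (h0 : turnA 0) : AWins 2 turnA 4 (start 2 (by norm_num)) := by
  classical
  -- invariant: the first value is `1`
  have step : ∀ n f, Ok 2 (4 - n) f → n ≤ 3 → f 0 = 1 → AWins 2 turnA n f := by
    intro n
    induction n with
    | zero =>
      intro f hok _ hf0
      obtain ⟨σ, hσ⟩ := exists_ext hok (Or.inl rfl) (by norm_num : 1 ≤ 2)
      obtain ⟨τ, hτ⟩ := exists_ext hok (Or.inr rfl) (by norm_num : 1 ≤ 2)
      have hσ' : ∀ i : Fin 2, σ i = f i := fun i => by
        have := hσ i (by have := i.2; omega)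
        simpa using this
      have hτ' : ∀ i : Fin 2, τ i = f (2 + i) := fun i => by
        have := hτ i (by have := i.2; omega)
        simpa using this
      refine ⟨σ, τ, hσ', hτ', ?_⟩
      rw [eq_top_iff]
      intro g _
      have hσs : σ = swap 0 1 := by
        apply perm_eq_of_agree
        intro i hi
        have : i = 0 := by apply Fin.ext; simp; omega
        rw [this, hσ' 0]
        simpa using hf0
      have hmem : σ ∈ Subgroup.closure {σ, τ} := Subgroup.subset_closure (by simp)
      have hg : g = 1 ∨ g = swap 0 1 := by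
        by_cases hg0 : g 0 = 0
        · left
          apply perm_eq_of_agree
          intro i hi
          have : i = 0 := by apply Fin.ext; simp; omega
          rw [this, hg0]; rfl
        · right
          apply perm_eq_of_agree
          intro i hi
          have : i = 0 := by apply Fin.ext; simp; omega
          rw [this, swap_apply_left]
          omega
      rcases hg with rfl | rfl
      · exact Subgroup.one_mem _
      · rw [← hσs]; exact hmem
    | succ n ih =>
      intro f hok hn hf0
      have e : 4 - (n + 1) + 1 = 4 - n := by omega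
      have hupd : ∀ v, Function.update f (2 * 2 - (n + 1)) v 0 = 1 := by
        intro v
        rw [Function.update_of_ne (by omega)]; exact hf0
      obtain ⟨c, hc, i, hi⟩ := exists_base (N := 2) (t := 2 * 2 - (n + 1)) (by omega)
      obtain ⟨ρ, hρ⟩ := exists_ext hok hc (by norm_num)
      have hleg : Legal 2 (2 * 2 - (n + 1)) f (ρ i) := by
        rw [hi]
        exact legal_of_ext hc i ρ (fun j hj => hρ j (by omega))
      by_cases ht : turnA (2 * 2 - (n + 1))
      · left
        refine ⟨ht, ρ i, hleg, ih _ ?_ (by omega) (hupd _)⟩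
        rw [← e]; exact ok_update hok hleg
      · right
        refine ⟨ht, fun v hv => ih _ ?_ (by omega) (hupd v)⟩
        rw [← e]; exact ok_update hok hv
  have hleg : Legal 2 0 (start 2 (by norm_num)) 1 := fun s hs => absurd hs (Nat.not_lt_zero s)
  left
  refine ⟨h0, 1, hleg, ?_⟩
  apply step 3
  · exact ok_update (ok_zero 2 _) hleg
  · norm_num
  · exact Function.update_self _ _ _

end Pool.Agent.Q238.PermGame
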